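import Pool.Agent.H6.GS2.Targets
import Pool.Agent.H6.GS2.Bas

/-!
# Theorem (G): the frequencies of the optimal sum of a regular window are separated (row SEP)
-/

set_option autoImplicit false

open Finset Pool.Agent.H6.N4D Pool.Agent.H93 Pool.Agent.H93.GS Pool.Agent.H6.GS2

namespace Pool.Agent.H18.GSW

/-- the residual at a frequency of the optimal sum -/
private lemma sep_kt {th : ℝ} {lam : ℕ → ℝ} {q N n : ℕ} {g : Ex} (hth : 0 < th)
    (hg : Opt th lam q N n g) {i : ℕ} (hi : i < g.k) : ‖rs lam q N n g (g.a i)‖ = th := by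
  rw [hg.kt i hi]
  have hc : ‖g.c i‖ ≠ 0 := norm_ne_zero_iff.2 (hg.nz i hi)
  rw [norm_div, norm_mul, Complex.norm_real, Complex.norm_real, Real.norm_of_nonneg hth.le,
    norm_norm]
  field_simp

/-- SEP. The frequencies of the optimal sum of a regular window are separated, there are few of
them. -/
theorem pf_SEP (hC : T_CUR) (hB : T_BNM) (hS : T_BSL) : T_SEP := by
  intro th Lam hth hth1 hLam
  set Lam1 : ℝ := max Lam (10 / th ^ 2) with hL1
  have hLL : Lam ≤ Lam1 := le_max_left _ _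
  have hLt : 10 / th ^ 2 ≤ Lam1 := le_max_right _ _
  have hL1' : 1 ≤ Lam1 := hLam.trans hLL
  have hL0 : 0 < Lam1 := by linarith
  obtain ⟨P₀, C, κ, hP, hC1, hκ, hκ1, H⟩ := hC th Lam1 hth hth1 hL1'
  refine ⟨P₀, max C 10, κ, hP, hC1.trans (le_max_left _ _), hκ, hκ1, ?_⟩
  intro lam q P L n g hl hq hCL hPP hg hd hgap
  have hq' : (0 : ℝ) < q := by exact_mod_cast hq
  have hCq : C * q ≤ L := (Nat.mul_le_mul_right q (le_max_left C 10)).trans hCL
  have hTq : 10 * q ≤ L := (Nat.mul_le_mul_right q (le_max_right C 10)).trans hCL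
  have hP1 : 1 ≤ P := hP.trans hPP
  have hL1 : 1 ≤ L := by omega
  have hN1 : 1 ≤ P * L := Nat.mul_pos hP1 hL1
  have hTN : 10 * q ≤ P * L := hTq.trans (Nat.le_mul_of_pos_left L hP1)
  have hN0 : (0 : ℝ) < ((P * L : ℕ) : ℝ) := by exact_mod_cast hN1
  have hqN : (q : ℝ) / ((P * L : ℕ) : ℝ) ≤ 1 / 10 := by
    rw [div_le_div_iff₀ hN0 (by norm_num)]
    have : ((10 * q : ℕ) : ℝ) ≤ ((P * L : ℕ) : ℝ) := by exact_mod_cast hTN
    rw [Nat.cast_mul 10 q] at this
    push_cast at this ⊢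
    linarith
  have hkt : ∀ i < g.k, ‖rs lam q (P * L) n g (g.a i)‖ = th := fun i hi => sep_kt hth hg hi
  have key : ∀ i < g.k, ∀ l < g.k, i ≠ l →
      Lam1 * q / ((P * L : ℕ) : ℝ) ≤ nd (q * (g.a i - g.a l)) := by
    intro i hi l hl' hil
    by_contra hlt
    rw [not_le] at hlt
    obtain ⟨b, hb⟩ := exists_int (q * (g.a l - g.a i))
    have hsym : nd (q * (g.a l - g.a i)) = nd (q * (g.a i - g.a l)) := by
      rw [← nd_neg]; congr 1; ring
    have hpos := hd i hi l hl' hil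
    obtain ⟨t, ht⟩ : ∃ t : ℝ, t = q * (g.a l - g.a i) - b := ⟨_, rfl⟩
    rw [← ht] at hb
    have ht0 : 0 < |t| := by rw [hb, hsym]; exact hpos
    have htl : |t| < Lam1 * q / ((P * L : ℕ) : ℝ) := by rw [hb, hsym]; exact hlt
    have hs : |t * ((P * L : ℕ) : ℝ) / q| ≤ Lam1 := by
      rw [abs_div, abs_mul, abs_of_pos hN0, abs_of_pos hq', div_le_iff₀ hq']
      rw [lt_div_iff₀ hN0] at htl
      exact htl.le
    have h1 := H lam q P L n g hl hq hCq hPP hg hgap i hi _ b hs
    have h2 : g.a i + b / q + t * ((P * L : ℕ) : ℝ) / q / ((P * L : ℕ) : ℝ) = g.a l := by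
      have h3 : t * ((P * L : ℕ) : ℝ) / q / ((P * L : ℕ) : ℝ) = t / q := by
        field_simp
      rw [h3, ht]
      field_simp
      ring
    rw [h2, hkt l hl'] at h1
    have h3 : 0 < min 1 ((t * ((P * L : ℕ) : ℝ) / q) ^ 2) := by
      apply lt_min one_pos
      have : t ≠ 0 := abs_pos.1 ht0
      positivity
    have h4 := mul_pos hth h3
    linarith
  refine ⟨fun i hi l hl' hil => le_trans ?_ (key i hi l hl' hil), ?_⟩
  · gcongr
  · have h1 := hS q (P * L) n g.k Lam1 g.a (fun m => (lam m : ℂ) - g.f m) hq hN1 hL0 key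
    have h2 : ∑ i ∈ range g.k,
        ‖ac q (P * L) n (fun m => ((lam m : ℂ) - g.f m) * ee (-(g.a i * m)))‖ ^ 2 =
          g.k * th ^ 2 := by
      rw [sum_congr rfl (fun i hi => by
        have := hkt i (mem_range.1 hi)
        unfold rs at this
        rw [this]), sum_const, card_range, nsmul_eq_mul]
    rw [h2] at h1
    have h3 := (hB th lam q (P * L) n g hth hl hq hN1 hg).2.2.2.1
    have hk0 : (0 : ℝ) ≤ g.k := Nat.cast_nonneg _
    have ht2 : 0 < th ^ 2 := by positivity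
    have h4 : (g.k : ℝ) / (2 * Lam1) ≤ g.k * th ^ 2 / 20 := by
      rw [div_le_div_iff₀ (by positivity) (by norm_num)]
      rw [div_le_iff₀ ht2] at hLt
      nlinarith
    have hqN0 : 0 ≤ (q : ℝ) / ((P * L : ℕ) : ℝ) := by positivity
    have h5 : 0 ≤ (g.k : ℝ) / (2 * Lam1) := by positivity
    have h6 : (1 + (q : ℝ) / ((P * L : ℕ) : ℝ) + g.k / (2 * Lam1)) *
        ar q (P * L) n (fun m => ‖(lam m : ℂ) - g.f m‖ ^ 2) ≤
          (11 / 10 + g.k * th ^ 2 / 20) * (11 / 10) := by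
      apply mul_le_mul
      · linarith
      · linarith
      · exact ar_nonneg _ _ _ fun m => by positivity
      · positivity
    rw [le_div_iff₀ ht2]
    nlinarith

end Pool.Agent.H18.GSW
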